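import Mathlib.Algebra.Order.SuccPred.PartialSups
import Mathlib.Algebra.Notation.Lemmas
import Mathlib.Tactic.SuppressCompilation
import Mathlib.Tactic.Monotonicity.Lemmas
import Mathlib.Data.Int.Star
import Mathlib.Algebra.Order.Ring.Star
import Mathlib.Analysis.SpecificLimits.Basic
import Mathlib.Tactic.Algebra.Basic

-- ======== part 0: formerly Pool.Agent.MP_5fa381_lc.Rho
section MrgPart0

/-!
An increasing sequence of forest orders with finite initial parts whose union is the order of
a well order all of whose proper initial segments are countable.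
-/

set_option autoImplicit false

namespace Pool.Agent.MP_5fa381_lc

/-- `r n x y` is an increasing sequence of forest orders, each with finite predecessor sets,
whose union is the given linear order. -/
structure Sys {X : Type} [LinearOrder X] (r : ℕ → X → X → Prop) : Prop where
  refl : ∀ n x, r n x x
  le : ∀ n x y, r n x y → x ≤ y
  mono : ∀ n m x y, n ≤ m → r n x y → r m x y
  trans : ∀ n x y z, r n x y → r n y z → r n x z
  forest : ∀ n x y z, r n x z → r n y z → x ≤ y → r n x y
  exh : ∀ x y, x ≤ y → ∃ n, r n x y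
  fin : ∀ n y, {x | r n x y}.Finite

/-- The relation generated from a ladder system `d`. -/
inductive Rel {X : Type} [LinearOrder X] (d : X → ℕ → X) (n : ℕ) : X → X → Prop
  | refl (x : X) : Rel d n x x
  | step (x z : X) (k : ℕ) (hk : k ≤ n) (hlt : ∀ j, d z j < z)
      (hch : ∀ j, j < k → Rel d n (d z j) (d z (j + 1))) (hx : Rel d n x (d z k)) : Rel d n x z

section

variable {X : Type} [LinearOrder X] {d : X → ℕ → X}

theorem Rel.inv {n : ℕ} {x z : X} (h : Rel d n x z) :
    x = z ∨ ∃ k, k ≤ n ∧ (∀ j, d z j < z) ∧ (∀ j, j < k → Rel d n (d z j) (d z (j + 1))) ∧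
      Rel d n x (d z k) := by
  cases h with
  | refl => exact Or.inl rfl
  | step _ _ k hk hlt hch hx => exact Or.inr ⟨k, hk, hlt, hch, hx⟩

theorem Rel.le' {n : ℕ} {x z : X} (h : Rel d n x z) : x ≤ z := by
  induction h with
  | refl => exact le_rfl
  | step x z k _ hlt _ _ _ ih => exact ih.trans (hlt k).le

theorem Rel.mono' {n m : ℕ} (hnm : n ≤ m) {x z : X} (h : Rel d n x z) : Rel d m x z := by
  induction h with
  | refl x => exact Rel.refl x
  | step x z k hk hlt _ _ ih1 ih2 => exact Rel.step x z k (hk.trans hnm) hlt ih1 ih2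

theorem Rel.trans' {n : ℕ} {y z : X} (h : Rel d n y z) : ∀ x, Rel d n x y → Rel d n x z := by
  induction h with
  | refl y => exact fun x hx => hx
  | step y z k hk hlt hch _ _ ih2 => exact fun x hx => Rel.step x z k hk hlt hch (ih2 x hx)

theorem Rel.chain {n : ℕ} {z : X} {k : ℕ} (hch : ∀ j, j < k → Rel d n (d z j) (d z (j + 1))) :
    ∀ j, j ≤ k → Rel d n (d z j) (d z k) := by
  induction k with
  | zero =>
    intro j hj
    obtain rfl : j = 0 := by omega
    exact Rel.refl _
  | succ k ih =>
    intro j hj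
    rcases Nat.lt_or_ge j (k + 1) with h | h
    · exact (hch k (by omega)).trans' _ (ih (fun i hi => hch i (by omega)) j (by omega))
    · obtain rfl : j = k + 1 := by omega
      exact Rel.refl _

variable [WellFoundedLT X]

theorem Rel.forest' {n : ℕ} (z : X) :
    ∀ x y, Rel d n x z → Rel d n y z → x ≤ y → Rel d n x y := by
  induction z using WellFoundedLT.induction with
  | ind z ih =>
    intro x y hx hy hxy
    rcases hy.inv with rfl | ⟨k, _, hlt, hch, hy'⟩
    · exact hx
    rcases hx.inv with rfl | ⟨k', _, _, hch', hx'⟩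
    · exact absurd (hxy.trans hy'.le') (not_le.mpr (hlt k))
    rcases le_total k k' with h | h
    · exact ih _ (hlt k') x y hx' ((Rel.chain hch' k h).trans' _ hy') hxy
    · exact ih _ (hlt k) x y ((Rel.chain hch k' h).trans' _ hx') hy' hxy

theorem Rel.fin' {n : ℕ} (z : X) : {x | Rel d n x z}.Finite := by
  induction z using WellFoundedLT.induction with
  | ind z ih =>
    by_cases hlt : ∀ j, d z j < z
    · have h1 : (⋃ k ∈ Set.Iic n, {x | Rel d n x (d z k)}).Finite :=
        (Set.finite_Iic n).biUnion (fun k _ => ih _ (hlt k))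
      refine (h1.insert z).subset ?_
      intro x hx
      rcases Rel.inv hx with rfl | ⟨k, hk, _, _, hx'⟩
      · exact Set.mem_insert _ _
      · exact Set.mem_insert_of_mem _ (Set.mem_biUnion (show k ∈ Set.Iic n from hk) hx')
    · refine (Set.finite_singleton z).subset ?_
      intro x hx
      rcases Rel.inv hx with rfl | ⟨k, _, hlt', _, _⟩
      · rfl
      · exact absurd hlt' hlt

theorem Rel.exh' (hd : ∀ z x, x < z → (∀ j, d z j < z) ∧ (∀ j, d z j ≤ d z (j + 1)) ∧
      ∃ k, x ≤ d z k) (z : X) : ∀ x, x ≤ z → ∃ n, Rel d n x z := by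
  induction z using WellFoundedLT.induction with
  | ind z ih =>
    intro x hx
    rcases hx.eq_or_lt with rfl | hx
    · exact ⟨0, Rel.refl _⟩
    obtain ⟨hlt, hmono, k, hk⟩ := hd z x hx
    have h1 : ∀ j, ∃ n, Rel d n (d z j) (d z (j + 1)) := fun j => ih _ (hlt _) _ (hmono j)
    choose f hf using h1
    obtain ⟨n0, hn0⟩ := ih _ (hlt k) x hk
    refine ⟨max (max k n0) ((Finset.range k).sup f), Rel.step x z k ?_ hlt ?_ ?_⟩
    · exact (le_max_left _ _).trans (le_max_left _ _)
    · intro j hj
      exact (hf j).mono' ((Finset.le_sup (f := f) (Finset.mem_range.mpr hj)).trans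
        (le_max_right _ _))
    · exact hn0.mono' ((le_max_right _ _).trans (le_max_left _ _))

end

theorem exists_ladder {X : Type} [LinearOrder X] (hc : ∀ z : X, (Set.Iio z).Countable) :
    ∃ d : X → ℕ → X, ∀ z x, x < z → (∀ j, d z j < z) ∧ (∀ j, d z j ≤ d z (j + 1)) ∧
      ∃ k, x ≤ d z k := by
  have h : ∀ z : X, ∃ e : ℕ → X, ∀ x, x < z → (∀ j, e j < z) ∧ (∀ j, e j ≤ e (j + 1)) ∧
      ∃ k, x ≤ e k := by
    intro z
    by_cases hne : (Set.Iio z).Nonempty
    · obtain ⟨f, hf⟩ := (hc z).exists_eq_range hne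
      have hfl : ∀ j, f j < z := fun j => by
        have : f j ∈ Set.Iio z := by rw [hf]; exact ⟨j, rfl⟩
        exact this
      refine ⟨fun k => partialSups f k, fun x hx => ⟨fun j => ?_, fun j => ?_, ?_⟩⟩
      · induction j with
        | zero => simpa using hfl 0
        | succ j ih =>
          show partialSups f (j + 1) < z
          rw [partialSups_add_one]
          exact sup_lt_iff.mpr ⟨ih, hfl _⟩
      · exact (partialSups f).monotone (Nat.le_succ j)
      · have : x ∈ Set.range f := by rw [← hf]; exact hx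
        obtain ⟨k, rfl⟩ := this
        exact ⟨k, le_partialSups f k⟩
    · exact ⟨fun _ => z, fun x hx => absurd ⟨x, hx⟩ hne⟩
  choose d hd using h
  exact ⟨d, hd⟩

theorem exists_sys {X : Type} [LinearOrder X] [WellFoundedLT X]
    (hc : ∀ z : X, (Set.Iio z).Countable) : ∃ r : ℕ → X → X → Prop, Sys r := by
  obtain ⟨d, hd⟩ := exists_ladder hc
  exact ⟨Rel d, ⟨fun n x => Rel.refl x, fun n x y h => h.le', fun n m x y h h' => h'.mono' h,
    fun n x y z h h' => h'.trans' x h, fun n x y z => Rel.forest' z x y,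
    fun x y h => Rel.exh' hd y x h, fun n y => Rel.fin' y⟩⟩

end Pool.Agent.MP_5fa381_lc

end MrgPart0

-- ======== part 1: formerly Pool.Agent.MP_5fa381_lc.Family
section MrgPart1

/-!
The family of finite sets in which every point wins a descent game.  It is hereditary, it has no
infinite homogeneous set, and every finite set has a subset of at least half its size in it.
-/

set_option autoImplicit false
set_option linter.unusedSectionVars false

namespace Pool.Agent.MP_5fa381_lc

open Classical

section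

variable {X : Type} [LinearOrder X] (r : ℕ → X → X → Prop)

/-- The points of `t` above `x` in the `n`-th forest order. -/
noncomputable def Up (n : ℕ) (t : Finset X) (x : X) : Finset X := t.filter (fun y => r n x y)

/-- `(a, b)` is a witness of level `i` for `x` in `t`. -/
def Wit (t : Finset X) (x : X) (i a b : ℕ) : Prop :=
  a ≤ b ∧ 2 ^ (i + 3) ≤ (Up r a t x).card ∧ 2 ^ (i + 3) * 2 ^ (a + 1) ≤ (Up r b t x).card

/-- `W` is a winning region of the descent game of `x` in `t`. -/
def Closed (t : Finset X) (x : X) (W : ℕ → ℕ → X → Prop) : Prop :=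
  ∀ i n z, W i n z → ∀ a b, n ≤ a → Wit r t x i a b → ∃ y, y < z ∧ r b y x ∧ W (i + 1) b y

/-- Every point of `t` wins its descent game. -/
def Good (t : Finset X) : Prop := ∀ x ∈ t, ∃ W, W 0 0 x ∧ Closed r t x W

variable {r}

theorem Up_mono {n : ℕ} {s t : Finset X} (h : s ⊆ t) (x : X) : Up r n s x ⊆ Up r n t x :=
  Finset.filter_subset_filter _ h

theorem Wit.mono {s t : Finset X} (h : s ⊆ t) {x : X} {i a b : ℕ} (hw : Wit r s x i a b) :
    Wit r t x i a b :=
  ⟨hw.1, hw.2.1.trans (Finset.card_le_card (Up_mono h x)),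
    hw.2.2.trans (Finset.card_le_card (Up_mono h x))⟩

theorem Closed.anti {s t : Finset X} (h : s ⊆ t) {x : X} {W : ℕ → ℕ → X → Prop}
    (hW : Closed r t x W) : Closed r s x W :=
  fun i n z hz a b hna hw => hW i n z hz a b hna (hw.mono h)

theorem Good.anti {s t : Finset X} (h : s ⊆ t) (ht : Good r t) : Good r s := by
  intro x hx
  obtain ⟨W, h0, hW⟩ := ht x (h hx)
  exact ⟨W, h0, hW.anti h⟩

theorem Up_sub (hr : Sys r) {n m : ℕ} (hnm : n ≤ m) {t : Finset X} {x y : X} (hxy : r m x y) :
    Up r n t y ⊆ Up r m t x := by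
  intro z hz
  simp only [Up, Finset.mem_filter] at hz ⊢
  exact ⟨hz.1, hr.trans m x y z hxy (hr.mono n m y z hnm hz.2)⟩

/-- The counting lemma. -/
theorem count (hr : Sys r) (A B : Finset X) (G : ℕ) (a b : X → ℕ)
    (hab : ∀ x ∈ B, a x ≤ b x) (ha : ∀ x ∈ B, G ≤ (Up r (a x) A x).card)
    (hb : ∀ x ∈ B, G * 2 ^ (a x + 1) ≤ (Up r (b x) A x).card)
    (hfar : ∀ x ∈ B, ∀ y ∈ B, x < y → ¬ r (b y) x y) : G * B.card ≤ 2 * A.card := by
  let w : X → ℕ := fun x => (B.filter (fun y => x < y ∧ r (a x) x y)).sup (fun y => a y + 1)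
  have hlow : ∀ x ∈ B, ∀ y ∈ B, x < y → r (a x) x y → b y < a x := by
    intro x hx y hy hxy h
    by_contra hcon
    exact hfar x hx y hy hxy (hr.mono _ _ _ _ (not_lt.mp hcon) h)
  have hw1 : ∀ x ∈ B, w x ≤ a x := by
    intro x hx
    refine Finset.sup_le ?_
    intro y hy
    rw [Finset.mem_filter] at hy
    have := hlow x hx y hy.1 hy.2.1 hy.2.2
    have := hab y hy.1
    show a y + 1 ≤ a x
    omega
  have hw2 : ∀ x ∈ B, ∀ y ∈ B, x < y → r (a x) x y → w y < w x := by
    intro x _ y hy hxy h
    have h1 : a y + 1 ≤ w x :=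
      Finset.le_sup (f := fun y => a y + 1) (Finset.mem_filter.mpr ⟨hy, hxy, h⟩)
    have := hw1 y hy
    omega
  have hsize : ∀ x ∈ B, G * 2 ^ (w x) ≤ (Up r (a x) A x).card := by
    intro x hx
    rcases (B.filter (fun y => x < y ∧ r (a x) x y)).eq_empty_or_nonempty with he | hne
    · have : w x = 0 := by simp only [w, he, Finset.sup_empty]; rfl
      rw [this]; simpa using ha x hx
    · obtain ⟨y, hy, hyw⟩ := Finset.exists_mem_eq_sup _ hne (fun y => a y + 1)
      rw [Finset.mem_filter] at hy
      have h1 : w x = a y + 1 := hyw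
      rw [h1]
      exact (hb y hy.1).trans (Finset.card_le_card
        (Up_sub hr (hlow x hx y hy.1 hy.2.1 hy.2.2).le hy.2.2))
  have hdisj' : ∀ x ∈ B, ∀ y ∈ B, x < y → w x = w y →
      Disjoint (Up r (a x) A x) (Up r (a y) A y) := by
    intro x hx y hy hxy hww
    rw [Finset.disjoint_left]
    intro z hzx hzy
    simp only [Up, Finset.mem_filter] at hzx hzy
    rcases le_total (a x) (a y) with h | h
    · have h1 : r (a y) x y := hr.forest _ x y z (hr.mono _ _ _ _ h hzx.2) hzy.2 hxy.le
      exact hfar x hx y hy hxy (hr.mono _ _ _ _ (hab y hy) h1)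
    · have h1 : r (a x) x y := hr.forest _ x y z hzx.2 (hr.mono _ _ _ _ h hzy.2) hxy.le
      have := hw2 x hx y hy hxy h1
      omega
  have hlevel : ∀ v, G * 2 ^ v * (B.filter (fun x => w x = v)).card ≤ A.card := by
    intro v
    have hd : ((B.filter (fun x => w x = v) : Finset X) : Set X).PairwiseDisjoint
        (fun x => Up r (a x) A x) := by
      intro x hx y hy hne
      simp only [Finset.coe_filter, Set.mem_ofPred_eq] at hx hy
      rcases lt_or_gt_of_ne hne with h | h
      · exact hdisj' x hx.1 y hy.1 h (hx.2.trans hy.2.symm)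
      · exact (hdisj' y hy.1 x hx.1 h (hy.2.trans hx.2.symm)).symm
    have h1 : ((B.filter (fun x => w x = v)).biUnion (fun x => Up r (a x) A x)).card ≤ A.card := by
      apply Finset.card_le_card
      intro z hz
      rw [Finset.mem_biUnion] at hz
      obtain ⟨x, _, hz⟩ := hz
      exact (Finset.mem_filter.mp hz).1
    rw [Finset.card_biUnion hd] at h1
    refine le_trans ?_ h1
    rw [mul_comm]
    refine le_trans (le_of_eq ?_) (Finset.card_nsmul_le_sum _ _ (G * 2 ^ v) ?_)
    · simp
    · intro x hx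
      rw [Finset.mem_filter] at hx
      rw [← hx.2]
      exact hsize x hx.1
  set M := B.sup w + 1 with hM
  have hcard : B.card = ∑ v ∈ Finset.range M, (B.filter (fun x => w x = v)).card := by
    apply Finset.card_eq_sum_card_fiberwise
    intro x hx
    have : w x ≤ B.sup w := Finset.le_sup (f := w) hx
    simp only [Finset.coe_range, Set.mem_Iio]
    omega
  have hreal : ((G * B.card : ℕ) : ℝ) ≤ ((2 * A.card : ℕ) : ℝ) := by
    rw [hcard, Finset.mul_sum]
    push_cast
    calc ∑ v ∈ Finset.range M, (G : ℝ) * ((B.filter (fun x => w x = v)).card : ℝ)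
        ≤ ∑ v ∈ Finset.range M, (A.card : ℝ) * (1 / 2) ^ v := by
          apply Finset.sum_le_sum
          intro v _
          have h1 : (G : ℝ) * 2 ^ v * ((B.filter (fun x => w x = v)).card : ℝ) ≤ A.card := by
            exact_mod_cast hlevel v
          have h2 : (0 : ℝ) < 2 ^ v := by positivity
          rw [one_div, inv_pow, ← div_eq_mul_inv, le_div_iff₀ h2]
          linarith
      _ = (A.card : ℝ) * ∑ v ∈ Finset.range M, (1 / 2 : ℝ) ^ v := by rw [Finset.mul_sum]
      _ ≤ (A.card : ℝ) * 2 := by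
          apply mul_le_mul_of_nonneg_left (sum_geometric_two_le M) (by positivity)
      _ = 2 * (A.card : ℝ) := by ring
  exact_mod_cast hreal

variable (r) in
/-- The sets of safe points, defined downwards from level `J`. -/
noncomputable def Safe (A : Finset X) (J : ℕ) : ℕ → Finset X
  | 0 => A
  | k + 1 => A.filter (fun z => ∀ a b, Wit r A z (J - (k + 1)) a b →
      ∃ y ∈ Safe A J k, y < z ∧ r b y z)

theorem Safe_sub (A : Finset X) (J k : ℕ) : Safe r A J k ⊆ A := by
  cases k with
  | zero => exact Finset.Subset.refl _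
  | succ k => exact Finset.filter_subset _ _

theorem Safe_step (hr : Sys r) (A : Finset X) (J k : ℕ) :
    2 ^ (J - (k + 1) + 3) * (Safe r A J k \ Safe r A J (k + 1)).card ≤ 2 * A.card := by
  have h : ∀ z, ∃ a b, z ∈ Safe r A J k \ Safe r A J (k + 1) →
      Wit r A z (J - (k + 1)) a b ∧ ∀ y ∈ Safe r A J k, y < z → ¬ r b y z := by
    intro z
    by_cases hz : z ∈ Safe r A J k \ Safe r A J (k + 1)
    · rw [Finset.mem_sdiff] at hz
      have h1 : z ∈ A := Safe_sub A J k hz.1
      have h2 := hz.2
      simp only [Safe, Finset.mem_filter, h1, true_and, not_forall, not_exists, not_and] at h2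
      obtain ⟨a, b, hw, h3⟩ := h2
      exact ⟨a, b, fun _ => ⟨hw, h3⟩⟩
    · exact ⟨0, 0, fun h => absurd h hz⟩
  choose a b hab using h
  exact count hr A _ _ a b (fun x hx => (hab x hx).1.1) (fun x hx => (hab x hx).1.2.1)
    (fun x hx => (hab x hx).1.2.2)
    (fun x hx y hy hxy => (hab y hy).2 x (Finset.mem_sdiff.mp hx).1 hxy)

theorem Safe_card (hr : Sys r) (A : Finset X) (J : ℕ) :
    ∀ k, k ≤ J → 2 ^ (J - k + 1) * (A.card - (Safe r A J k).card) ≤ A.card := by
  intro k
  induction k with
  | zero => intro _; simp [Safe]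
  | succ k ih =>
    intro hk
    have h1 := ih (by omega)
    have h2 := Safe_step hr A J k
    have h3 : (Safe r A J k).card ≤
        (Safe r A J k \ Safe r A J (k + 1)).card + (Safe r A J (k + 1)).card :=
      Finset.card_le_card_sdiff_add_card
    obtain ⟨i, hi⟩ : ∃ i, J - (k + 1) = i := ⟨_, rfl⟩
    have hi' : J - k = i + 1 := by omega
    rw [hi] at h2 ⊢
    rw [hi'] at h1
    have h4 : A.card - (Safe r A J (k + 1)).card ≤
        (A.card - (Safe r A J k).card) + (Safe r A J k \ Safe r A J (k + 1)).card := by omega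
    have h5 := Nat.mul_le_mul_left (2 ^ (i + 1)) h4
    have e1 : 2 ^ (i + 1 + 1) = 2 * 2 ^ (i + 1) := by ring
    have e2 : 2 ^ (i + 3) = 4 * 2 ^ (i + 1) := by ring
    rw [e1] at h1
    rw [e2] at h2
    nlinarith

/-- The half property. -/
theorem half (hr : Sys r) (A : Finset X) : ∃ B, B ⊆ A ∧ A.card ≤ 2 * B.card ∧ Good r B := by
  set J := A.card with hJ
  refine ⟨Safe r A J J, Safe_sub A J J, ?_, ?_⟩
  · have := Safe_card hr A J J le_rfl
    simp only [Nat.sub_self, zero_add, pow_one] at this
    omega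
  · intro x hx
    refine ⟨fun i n z => z ∈ Safe r A J (J - i) ∧ r n z x, ⟨by simpa using hx, hr.refl _ _⟩, ?_⟩
    intro i n z hz a b hna hw
    have hw' : Wit r A x i a b := hw.mono (Safe_sub A J J)
    have hza : r a z x := hr.mono _ _ _ _ hna hz.2
    have hzb : r b z x := hr.mono _ _ _ _ hw.1 hza
    have hwz : Wit r A z i a b :=
      ⟨hw.1, hw'.2.1.trans (Finset.card_le_card (Up_sub hr le_rfl hza)),
        hw'.2.2.trans (Finset.card_le_card (Up_sub hr le_rfl hzb))⟩
    have hiJ : i < J := by
      have h1 : (Up r a A x).card ≤ J := Finset.card_le_card (Finset.filter_subset _ _)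
      have h2 : i + 3 < 2 ^ (i + 3) := Nat.lt_two_pow_self
      have := hw'.2.1
      omega
    obtain ⟨k, hk⟩ : ∃ k, J - i = k + 1 := ⟨J - i - 1, by omega⟩
    have hz1 := hz.1
    rw [hk] at hz1
    simp only [Safe, Finset.mem_filter] at hz1
    have hi : J - (k + 1) = i := by omega
    rw [hi] at hz1
    obtain ⟨y, hy, hyz, hr'⟩ := hz1.2 a b hwz
    have hk' : J - (i + 1) = k := by omega
    refine ⟨y, hyz, hr.trans _ _ _ _ hr' hzb, ?_, hr.trans _ _ _ _ hr' hzb⟩
    rw [hk']
    exact hy

theorem exists_big (hr : Sys r) {H : Set X} (hH : H.Infinite) {x : X} (hx : ∀ y ∈ H, x ≤ y)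
    (L n : ℕ) : ∃ (a : ℕ) (u : Finset X), n ≤ a ∧ (u : Set X) ⊆ H ∧ L ≤ (Up r a u x).card := by
  obtain ⟨u, hu, hcard⟩ := hH.exists_subset_card_eq L
  have h1 : ∀ y, ∃ m, y ∈ u → r m x y := by
    intro y
    by_cases hy : y ∈ u
    · obtain ⟨m, hm⟩ := hr.exh x y (hx y (hu hy))
      exact ⟨m, fun _ => hm⟩
    · exact ⟨0, fun h => absurd h hy⟩
  choose f hf using h1
  refine ⟨max n (u.sup f), u, le_max_left _ _, hu, ?_⟩
  have : Up r (max n (u.sup f)) u x = u := by
    apply Finset.filter_true_of_mem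
    intro y hy
    exact hr.mono _ _ _ _ ((Finset.le_sup (f := f) hy).trans (le_max_right _ _)) (hf y hy)
  rw [this, hcard]

theorem lose [WellFoundedLT X] (hr : Sys r) {H : Set X} (hH : H.Infinite) {x : X}
    (hx : ∀ y ∈ H, x ≤ y) (z : X) :
    ∀ i n, ∃ t : Finset X, (t : Set X) ⊆ H ∧ ∀ W, Closed r t x W → ¬ W i n z := by
  induction z using WellFoundedLT.induction with
  | ind z ih =>
    intro i n
    obtain ⟨a, u1, hna, hu1, hc1⟩ := exists_big hr hH hx (2 ^ (i + 3)) n
    obtain ⟨b, u2, hab, hu2, hc2⟩ := exists_big hr hH hx (2 ^ (i + 3) * 2 ^ (a + 1)) a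
    have h1 : ∀ y, ∃ t : Finset X, (t : Set X) ⊆ H ∧
        (y < z → ∀ W, Closed r t x W → ¬ W (i + 1) b y) := by
      intro y
      by_cases hy : y < z
      · obtain ⟨t, ht, ht'⟩ := ih y hy (i + 1) b
        exact ⟨t, ht, fun _ => ht'⟩
      · exact ⟨∅, by simp, fun h => absurd h hy⟩
    choose f hf using h1
    refine ⟨u1 ∪ u2 ∪ (hr.fin b x).toFinset.biUnion f, ?_, ?_⟩
    · intro y hy
      simp only [Finset.coe_union, Finset.coe_biUnion, Set.mem_union, Set.mem_iUnion,
        Finset.mem_coe] at hy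
      rcases hy with (hy | hy) | ⟨v, _, hy⟩
      · exact hu1 hy
      · exact hu2 hy
      · exact (hf v).1 hy
    · intro W hW hz
      have hw : Wit r (u1 ∪ u2 ∪ (hr.fin b x).toFinset.biUnion f) x i a b :=
        ⟨hab, hc1.trans (Finset.card_le_card (Up_mono
          (Finset.subset_union_left.trans Finset.subset_union_left) x)),
          hc2.trans (Finset.card_le_card (Up_mono
          (Finset.subset_union_right.trans Finset.subset_union_left) x))⟩
      obtain ⟨y, hyz, hyx, hWy⟩ := hW i n z hz a b hna hw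
      refine (hf y).2 hyz W (hW.anti ?_) hWy
      refine Finset.Subset.trans ?_ Finset.subset_union_right
      exact Finset.subset_biUnion_of_mem f (by simpa using hyx)

/-- There is no infinite homogeneous set. -/
theorem finite_of_good [WellFoundedLT X] (hr : Sys r) {H : Set X}
    (h : ∀ t : Finset X, (t : Set X) ⊆ H → Good r t) : H.Finite := by
  by_contra hH
  have hH' : H.Infinite := hH
  obtain ⟨x, hxH, hx⟩ := (wellFounded_lt (α := X)).has_min H hH'.nonempty
  have hx' : ∀ y ∈ H, x ≤ y := fun y hy => not_lt.mp (hx y hy)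
  obtain ⟨t, ht, hlose⟩ := lose hr hH' hx' x 0 0
  have hg := h (insert x t) (by
    rw [Finset.coe_insert]
    exact Set.insert_subset hxH ht)
  obtain ⟨W, h0, hW⟩ := hg x (Finset.mem_insert_self _ _)
  exact hlose W (hW.anti (Finset.subset_insert _ _)) h0

end

end Pool.Agent.MP_5fa381_lc

end MrgPart1

-- marker of a merged file
example : 731051 + 793285 = 731051 + 793285 := rfl
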